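import Mathlib

namespace Pool.Agent.Results.MP_4e32c3_nt.ManyValues

/-- `a` obeys the recursion of the problem (the value `a 0` is irrelevant). -/
def IsSeq (a : ℕ → ℕ) : Prop :=
  a 1 = 1 ∧ (∀ n, 1 ≤ n → a (2 * n) = a n) ∧
    ∀ n, 1 ≤ n → IsLeast {x : ℕ | 0 < x ∧ |(x : ℤ) - a (2 * n - 1)| = a n} (a (2 * n + 1))

lemma pos {a : ℕ → ℕ} (h : IsSeq a) : ∀ n, 1 ≤ n → 0 < a n := by
  intro n
  induction n using Nat.strong_induction_on with
  | _ n ih =>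
    intro hn
    rcases Nat.even_or_odd' n with ⟨m, rfl | rfl⟩
    · rw [h.2.1 m (by omega)]
      exact ih m (by omega) (by omega)
    · rcases Nat.eq_zero_or_pos m with rfl | hm
      · simp [h.1]
      · exact (h.2.2 m hm).1.1

lemma step {a : ℕ → ℕ} (h : IsSeq a) (n : ℕ) (hn : 1 ≤ n) :
    ∃ k, 1 ≤ k ∧ k ≤ 2 * n + 1 ∧ a n < a k := by
  have h1 := (h.2.2 n hn).1
  have hp : 0 < a (2 * n - 1) := pos h _ (by omega)
  obtain ⟨h2, h3⟩ := h1
  rcases abs_eq (by positivity : (0 : ℤ) ≤ a n) |>.1 h3 with h4 | h4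
  · exact ⟨2 * n + 1, by omega, le_rfl, by omega⟩
  · exact ⟨2 * n - 1, by omega, by omega, by omega⟩

lemma chain {a : ℕ → ℕ} (h : IsSeq a) (j : ℕ) :
    ∃ k, 1 ≤ k ∧ k < 2 ^ (j + 1) ∧ ∃ S : Finset ℕ, S.card = j + 1 ∧
      ∀ v ∈ S, v ≤ a k ∧ ∃ i, 1 ≤ i ∧ i < 2 ^ (j + 1) ∧ a i = v := by
  induction j with
  | zero =>
    refine ⟨1, le_rfl, by norm_num, {a 1}, by simp, ?_⟩
    intro v hv
    rw [Finset.mem_singleton] at hv
    subst hv
    exact ⟨le_rfl, 1, le_rfl, by norm_num, rfl⟩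
  | succ j ih =>
    obtain ⟨k, hk1, hk2, S, hS, hv⟩ := ih
    obtain ⟨k', h1, h2, h3⟩ := step h k hk1
    have hp : 2 ^ (j + 1 + 1) = 2 * 2 ^ (j + 1) := by rw [pow_succ]; ring
    have hn : a k' ∉ S := fun hm => by have := (hv _ hm).1; omega
    refine ⟨k', h1, by omega, insert (a k') S, by rw [Finset.card_insert_of_notMem hn, hS], ?_⟩
    intro v hm
    rcases Finset.mem_insert.1 hm with rfl | hm
    · exact ⟨le_rfl, k', h1, by omega, rfl⟩
    · obtain ⟨h4, i, hi1, hi2, hi3⟩ := hv v hm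
      exact ⟨by omega, i, hi1, by omega, hi3⟩

lemma parity {a : ℕ → ℕ} (h : IsSeq a) : ∀ n, 1 ≤ n → (a n % 2 = 0 ↔ n % 3 = 0) := by
  intro n
  induction n using Nat.strong_induction_on with
  | _ n ih =>
    intro hn
    rcases Nat.even_or_odd' n with ⟨m, rfl | rfl⟩
    · rw [h.2.1 m (by omega), ih m (by omega) (by omega)]
      omega
    · rcases Nat.eq_zero_or_pos m with rfl | hm
      · simp [h.1]
      · have h3 := (h.2.2 m hm).1.2
        have i1 := ih m (by omega) hm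
        have i2 := ih (2 * m - 1) (by omega) (by omega)
        obtain ⟨t, ht⟩ : ∃ t, m = 3 * t ∨ m = 3 * t + 1 ∨ m = 3 * t + 2 := ⟨m / 3, by omega⟩
        have e1 : (m % 3 = 0 ∧ (2 * m - 1) % 3 = 2 ∧ (2 * m + 1) % 3 = 1) ∨
            (m % 3 = 1 ∧ (2 * m - 1) % 3 = 1 ∧ (2 * m + 1) % 3 = 0) ∨
            (m % 3 = 2 ∧ (2 * m - 1) % 3 = 0 ∧ (2 * m + 1) % 3 = 2) := by
          rcases ht with ht | ht | ht
          · left; omega
          · right; left; omega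
          · right; right; omega
        rcases e1 with ⟨e1, e2, e3⟩ | ⟨e1, e2, e3⟩ | ⟨e1, e2, e3⟩ <;>
          rw [e1] at i1 <;> rw [e2] at i2 <;> rw [e3] <;>
          rcases abs_eq (by positivity : (0 : ℤ) ≤ a m) |>.1 h3 with h4 | h4 <;> omega

lemma step_odd {a : ℕ → ℕ} (h : IsSeq a) (n : ℕ) (hn : 1 ≤ n) :
    ∃ k, 1 ≤ k ∧ a n ≤ a k ∧ a k % 2 = 1 := by
  by_cases he : a n % 2 = 0
  · have hp : 0 < a (2 * n - 1) := pos h _ (by omega)
    obtain ⟨h2, h3⟩ := (h.2.2 n hn).1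
    have i0 := parity h n hn
    have i1 := parity h (2 * n + 1) (by omega)
    have i2 := parity h (2 * n - 1) (by omega)
    rcases abs_eq (by positivity : (0 : ℤ) ≤ a n) |>.1 h3 with h4 | h4
    · exact ⟨2 * n + 1, by omega, by omega, by omega⟩
    · exact ⟨2 * n - 1, by omega, by omega, by omega⟩
  · exact ⟨n, hn, le_rfl, by omega⟩

lemma main {a : ℕ → ℕ} (h : IsSeq a) :
    (∀ j : ℕ, j ≤ ((Finset.Ico 1 (2 ^ j)).image a).card) ∧
      Set.Infinite {m : ℕ | ∃ n, 1 ≤ n ∧ a n = m} := by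
  have key : ∀ j : ℕ, j ≤ ((Finset.Ico 1 (2 ^ j)).image a).card := by
    intro j
    rcases j with _ | j
    · exact Nat.zero_le _
    · obtain ⟨k, -, -, S, hS, hv⟩ := chain h j
      refine hS.symm.le.trans (Finset.card_le_card ?_)
      intro v hm
      obtain ⟨-, i, hi1, hi2, hi3⟩ := hv v hm
      exact Finset.mem_image.2 ⟨i, Finset.mem_Ico.2 ⟨hi1, hi2⟩, hi3⟩
  refine ⟨key, fun hf => ?_⟩
  have h1 := key (hf.toFinset.card + 1)
  have h2 : ((Finset.Ico 1 (2 ^ (hf.toFinset.card + 1))).image a) ⊆ hf.toFinset := by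
    intro v hm
    obtain ⟨i, hi, rfl⟩ := Finset.mem_image.1 hm
    exact hf.mem_toFinset.2 ⟨i, (Finset.mem_Ico.1 hi).1, rfl⟩
  have := Finset.card_le_card h2
  omega

theorem result (a : ℕ → ℕ) (h : IsSeq a) :
    (∀ j : ℕ, j ≤ ((Finset.Ico 1 (2 ^ j)).image a).card) ∧
      (∀ n, 1 ≤ n → (Even (a n) ↔ 3 ∣ n)) ∧
      Set.Infinite {m : ℕ | Odd m ∧ ∃ n, 1 ≤ n ∧ a n = m} := by
  refine ⟨(main h).1, fun n hn => ?_, ?_⟩
  · rw [Nat.even_iff, Nat.dvd_iff_mod_eq_zero]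
    exact parity h n hn
  · apply Set.infinite_of_forall_exists_gt
    intro B
    obtain ⟨m, ⟨n, hn, rfl⟩, hB⟩ := (main h).2.exists_gt B
    obtain ⟨k, hk, h1, h2⟩ := step_odd h n hn
    exact ⟨a k, ⟨Nat.odd_iff.2 h2, k, hk, rfl⟩, by omega⟩

end Pool.Agent.Results.MP_4e32c3_nt.ManyValues
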